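import Pool.Agent.MWFE.StmtsB

/-!
# Squad MWFE, row CLP: a step in a place block or in the tail
-/

set_option autoImplicit false

namespace Pool.Agent.MWFE.H36

open Pool.Agent.Helper14_MV Pool.Agent.Helper2_MV Pool.Agent.MVD
open Pool.Agent.MWE (Can XX fxy dxy dx dy up cp L4 pr Xs xl isx Fs nd nr)
open Pool.Agent.MWGR (cb)

theorem rrTrans {β : FIC} {a b c : List ℕ} (h1 : RR β a b) (h2 : RR β b c) : RR β a c :=
  β.trans h1 h2

theorem bwApp (R1 R2 : List ℕ) (B : ℕ → List ℕ) : Bw (R1 ++ R2) B = Bw R1 B ++ Bw R2 B := by
  simp [Bw, List.flatMap_append]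

theorem bwCons (r : ℕ) (R : List ℕ) (B : ℕ → List ℕ) :
    Bw (r :: R) B = B r ++ (3 * r + 2) :: Bw R B := by
  simp [Bw]

theorem bwUp (R : List ℕ) (B : ℕ → List ℕ) (r : ℕ) (D : List ℕ) (h : r ∉ R) :
    Bw R (up B r D) = Bw R B := by
  induction R with
  | nil => rfl
  | cons a l ih =>
    rw [bwCons, bwCons, ih (fun hh => h (List.mem_cons_of_mem _ hh))]
    have : a ≠ r := fun hh => h (hh ▸ List.mem_cons_self)
    simp [up, this]

theorem memBw (R : List ℕ) (B : ℕ → List ℕ) (r a : ℕ) (hr : r ∈ R) (ha : a ∈ B r) :
    a ∈ Bw R B := by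
  unfold Bw
  rw [List.mem_flatMap]
  exact ⟨r, hr, List.mem_append_left _ ha⟩

theorem pzNe (n z : ℕ) (B : ℕ → List ℕ) (r : ℕ) (h : r ≠ 0) : pz n z B r = B r := by
  simp [pz, up, h]

theorem pzUp (n z : ℕ) (B : ℕ → List ℕ) (r : ℕ) (D : List ℕ) (h : r ≠ 0) :
    pz n z (up B r D) = up (pz n z B) r D := by
  funext q
  unfold pz up
  by_cases h0 : q = 0
  · subst h0
    have h' : (0 : ℕ) ≠ r := fun hh => h hh.symm
    simp [h']
  · by_cases h1 : q = r
    · subst h1
      simp [h]
    · simp [h0, h1]

theorem pzSF (n m : ℕ) (B : ℕ → List ℕ) (sB : ∀ r, SFr (B r)) (r : ℕ) :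
    SFr (pz n (3 * m + 1) B r) := by
  by_cases h0 : r = 0
  · subst h0
    intro c hc
    simp only [pz, up, if_true, List.mem_append, List.mem_replicate] at hc
    rcases hc with ⟨_, hc⟩ | hc | ⟨_, hc⟩
    · omega
    · exact sB 0 c hc
    · omega
  · rw [pzNe _ _ _ _ h0]
    exact sB r

theorem cbSplit (Y1 Y2 : List ℕ) (h v : ℕ) (hv : v ∉ Y1) :
    cb (Y1 ++ v :: Y2) h v = Y1.count h := by
  unfold cb
  rw [List.takeWhile_append_of_pos]
  · simp
  · intro a ha
    simp only [decide_eq_true_eq]
    rintro rfl
    exact hv ha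

theorem clp (phx : PhxStmt) (bpx : BpxStmt) (baz : BazStmt) (hwz : HwzStmt) : ClpStmt := by
  intro n β m R c X B e hS hX sB se hE
  have nd : R.Nodup := hS.pR.nodup_iff.mpr List.nodup_range
  have bz : Bz m R c (pz n (3 * m + 1) B) e :=
    baz n β m R c X _ e hS.hz hS.can hS.pR hS.b01 hX (pzSF n m B sB) se hE
  obtain ⟨h1, hB1, h10, h13, hc1, hc2⟩ := hS.hb X B e hX sB se hE
  have m0 : (0 : ℕ) ∈ R := hS.pR.mem_iff.mpr (List.mem_range.mpr (by omega))
  have m1 : (1 : ℕ) ∈ R := hS.pR.mem_iff.mpr (List.mem_range.mpr (by omega))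
  -- the local letters and z are heavy
  have heavy := hwz m R c _ e bz
  refine ⟨?_, ?_⟩
  · intro r hr r0 r1 α Y Y' γ Λ hBr hYY hQ hRt
    have hrm : r < m + 2 := List.mem_range.mp (hS.pR.mem_iff.mp hr)
    obtain ⟨d, rfl⟩ : ∃ d, r = d + 2 := ⟨r - 2, by omega⟩
    have hdm : d < m := by omega
    set z := 3 * m + 1 with hz
    set B' := pz n z B with hB'
    have hB'r : B' (d + 2) = α ++ (Y ++ γ) := by rw [hB', pzNe _ _ _ _ r0, hBr]
    obtain ⟨R1, R2, hR⟩ := List.append_of_mem hr
    have nr1 : (d + 2) ∉ R1 := by
      intro hh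
      rw [hR, List.nodup_append] at nd
      exact nd.2.2 _ hh _ List.mem_cons_self rfl
    have nr2 : (d + 2) ∉ R2 := by
      intro hh
      rw [hR, List.nodup_append] at nd
      exact (List.nodup_cons.mp nd.2.1).1 hh
    set P := Bw R1 B' ++ α with hP
    set Q := γ ++ (3 * (d + 2) + 2) :: (Bw R2 B' ++ e) with hQd
    have hW : Bw R B' ++ e = P ++ (Y ++ Q) := by
      rw [hR, bwApp, bwCons, hB'r, hP, hQd]
      simp [List.append_assoc]
    have hW' : Bw R (up B' (d + 2) (α ++ (Y' ++ γ))) ++ e = P ++ (Y' ++ Q) := by
      rw [hR, bwApp, bwCons, bwUp _ _ _ _ nr1, bwUp _ _ _ _ nr2, hP, hQd]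
      simp [List.append_assoc, up]
    have hmemY : ∀ a ∈ Y, a ∈ B' (d + 2) := by
      intro a ha
      rw [hB'r]
      exact List.mem_append_right _ (List.mem_append_left _ ha)
    have hletters : ∀ a ∈ B' (d + 2), a = 3 * d + 1 ∨ a = z ∨ (a % 3 = 0 ∧ 6 ≤ a) := by
      intro a ha
      have haw : a ∈ Bw R B' ++ e := List.mem_append_left _ (memBw R B' _ a hr ha)
      have ha3 : a % 3 ≠ 2 := bz.sf _ a ha
      rcases bz.ct a haw ha3 with rfl | rfl | rfl | hac
      · exact absurd ha (bz.xo _ hr r0 r1)
      · exact absurd ha (bz.yo _ hr r0 r1)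
      · exact Or.inr (Or.inl rfl)
      · rcases hS.can.lo a hac with ⟨d', hd', rfl⟩ | ⟨hl1, hl2, _⟩
        · have hc := bz.li d' hd' _ hr
          have hpos : 0 < (B' (d + 2)).count (3 * d' + 1) := List.count_pos_iff.mpr ha
          by_cases hif : d + 2 = 1 ∨ d + 2 = d' + 2
          · left
            omega
          · rw [if_neg hif] at hc
            omega
        · exact Or.inr (Or.inr ⟨hl1, hl2⟩)
    have hheavy : ∀ a ∈ Y, a ≠ 3 * d + 1 → Hw (P ++ (Y ++ Q)) a := by
      intro a ha hne
      rw [← hW]
      have haB := hmemY a ha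
      have haw : a ∈ Bw R B' ++ e := List.mem_append_left _ (memBw R B' _ a hr haB)
      apply heavy a haw
      rcases hletters a haB with h | h | h
      · exact absurd h hne
      · exact Or.inl h
      · exact Or.inr h
    rw [pzUp n z B (d + 2) _ r0]
    refine rrTrans hE ?_
    rw [hW, hW']
    by_cases hvY : 3 * d + 1 ∈ Y
    · -- the letter v = 3 d + 1 occurs in Y
      have hcv : (B' (d + 2)).count (3 * d + 1) = 1 := by
        have := bz.li d hdm _ hr
        rw [if_pos (Or.inr rfl)] at this
        exact this
      have hvz : 3 * d + 1 ≠ z := by omega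
      set v := 3 * d + 1 with hv
      obtain ⟨Y1, Y2, hY⟩ := List.append_of_mem hvY
      have hYc : Y.count v = 1 := by
        have h1 : 0 < Y.count v := List.count_pos_iff.mpr hvY
        have h2 : (B' (d + 2)).count v = α.count v + (Y.count v + γ.count v) := by
          rw [hB'r, List.count_append, List.count_append]
        omega
      have hγv : v ∉ γ := by
        intro hh
        have h1 : 0 < γ.count v := List.count_pos_iff.mpr hh
        have h2 : (B' (d + 2)).count v = α.count v + (Y.count v + γ.count v) := by
          rw [hB'r, List.count_append, List.count_append]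
        omega
      have hY12 : Y1.count v = 0 ∧ Y2.count v = 0 := by
        rw [hY, List.count_append, List.count_cons_self] at hYc
        omega
      have hvY1 : v ∉ Y1 := List.count_eq_zero.mp hY12.1
      have hvY2 : v ∉ Y2 := List.count_eq_zero.mp hY12.2
      have hYc' : Y'.count v = 1 := by rw [← hYY.count_eq]; exact hYc
      have hvY' : v ∈ Y' := List.count_pos_iff.mp (by omega)
      obtain ⟨Y1', Y2', hY'⟩ := List.append_of_mem hvY'
      have hY12' : Y1'.count v = 0 ∧ Y2'.count v = 0 := by
        rw [hY', List.count_append, List.count_cons_self] at hYc'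
        omega
      have hvY1' : v ∉ Y1' := List.count_eq_zero.mp hY12'.1
      obtain ⟨hvΛ, hother⟩ := hQ v hYc
      have hzΛ : z ∉ Λ := by
        intro hzΛ
        rcases hRt with ⟨a, b, hγ⟩ | ⟨r', hr', hbf, a, b, hBr'⟩ | ⟨a, b, he⟩
        · apply hγv
          rw [hγ]
          exact List.mem_append_right _ (List.mem_append_left _ hvΛ)
        · have hvB : v ∈ B r' := by
            rw [hBr']
            exact List.mem_append_right _ (List.mem_append_left _ hvΛ)
          have hzB : z ∈ B r' := by
            rw [hBr']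
            exact List.mem_append_right _ (List.mem_append_left _ hzΛ)
          have hvB' : v ∈ B' r' := by
            by_cases h0 : r' = 0
            · subst h0
              simp only [hB', pz, up, if_true]
              exact List.mem_append_right _ (List.mem_append_left _ hvB)
            · rw [hB', pzNe _ _ _ _ h0]
              exact hvB
          have hpos : 0 < (B' r').count v := List.count_pos_iff.mpr hvB'
          have hli : (B' r').count v = if r' = 1 ∨ r' = d + 2 then 1 else 0 := bz.li d hdm r' hr'
          by_cases hif : r' = 1 ∨ r' = d + 2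
          · rcases hif with rfl | rfl
            · apply bz.z1 1 m1 hS.b01
              rw [hB', pzNe _ _ _ _ (by omega)]
              exact hzB
            · obtain ⟨A, C, D, hRR⟩ := hbf
              rw [hRR, List.nodup_append] at nd
              apply (List.nodup_cons.mp nd.2.1).1
              exact List.mem_append_right _ List.mem_cons_self
          · rw [if_neg hif] at hli
            omega
        · apply bz.le d hdm
          rw [he]
          exact List.mem_append_right _ (List.mem_append_left _ hvΛ)
      have hperm : (Y1 ++ Y2).Perm (Y1' ++ Y2') := by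
        have h1 : (v :: (Y1 ++ Y2)).Perm (v :: (Y1' ++ Y2')) := by
          refine (List.perm_middle.symm.trans ?_).trans List.perm_middle
          rw [← hY, ← hY']
          exact hYY
        exact (List.perm_cons v).mp h1
      have hmem12 : ∀ h ∈ Y1 ++ Y2, h ∈ Y ∧ h ≠ v := by
        intro h hh
        refine ⟨?_, ?_⟩
        · rw [hY]
          rcases List.mem_append.mp hh with hh | hh
          · exact List.mem_append_left _ hh
          · exact List.mem_append_right _ (List.mem_cons_of_mem _ hh)
        · rintro rfl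
          rcases List.mem_append.mp hh with hh | hh
          · exact hvY1 hh
          · exact hvY2 hh
      have hEq : P ++ (Y1 ++ v :: Y2) ++ Q = P ++ (Y ++ Q) := by
        rw [hY]
        simp [List.append_assoc]
      have hEq' : P ++ (Y1' ++ v :: Y2') ++ Q = P ++ (Y' ++ Q) := by
        rw [hY']
        simp [List.append_assoc]
      have key := bpx n β hS.hz P Q Y1 Y2 Y1' Y2' v hvY1 hvY2 ?_ hperm ?_ ?_
      · rw [hEq, hEq'] at key
        exact key
      · rw [hEq, ← hW]
        apply bz.mu v
        · exact List.mem_append_left _ (memBw R B' _ v hr (hmemY v hvY))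
        · omega
      · intro h hh
        rw [hEq]
        exact hheavy h (hmem12 h hh).1 (hmem12 h hh).2
      · intro h hh
        obtain ⟨hhY, hhv⟩ := hmem12 h hh
        rcases hletters h (hmemY h hhY) with h' | h' | h'
        · exact absurd h' hhv
        · right
          rw [h'] at hhv ⊢
          rcases hother z (fun hh' => hhv hh') with hh' | ⟨hmod, hcase⟩
          · exact absurd hh' hzΛ
          · rw [hY, hY', cbSplit _ _ _ _ hvY1, cbSplit _ _ _ _ hvY1'] at hmod
            rw [hY, hY', cbSplit _ _ _ _ hvY1, cbSplit _ _ _ _ hvY1'] at hcase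
            refine ⟨hmod, ?_⟩
            rcases hcase with hcase | ⟨ha, hb, hc, hd⟩
            · exact Or.inl hcase
            · right
              rw [List.count_append, List.count_cons_of_ne (Ne.symm hhv)] at hb
              rw [List.count_append, List.count_cons_of_ne (Ne.symm hhv)] at hd
              exact ⟨ha, by omega, hc, by omega⟩
        · left
          have hhw : h ∈ Bw R B' ++ e := List.mem_append_left _ (memBw R B' _ h hr (hmemY h hhY))
          have hhc : h ∈ c := by
            rcases bz.ct h hhw (by omega) with hh' | hh' | hh' | hh'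
            · omega
            · omega
            · omega
            · exact hh'
          have hh1 : h ∈ B' 1 := by
            rw [hB', pzNe _ _ _ _ (by omega), hB1]
            exact List.mem_cons_of_mem _ (List.mem_append_left _ (hc1 h hhc))
          have hv1 : v ∈ B' 1 := by
            have this : (B' 1).count v = if 1 = 1 ∨ 1 = d + 2 then 1 else 0 := bz.li d hdm 1 m1
            rw [if_pos (Or.inl rfl)] at this
            exact List.count_pos_iff.mp (by omega)
          have hmult : Mult (B' 1) (P ++ (Y1 ++ v :: Y2) ++ Q) := by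
            rw [hEq, ← hW]
            intro a ha
            exact bz.mu a (List.mem_append_left _ (memBw R B' 1 a m1 ha)) (bz.sf 1 a ha)
          have hloc : (∃ a b, P = a ++ (B' 1 ++ b)) ∨ ∃ a b, Q = a ++ (B' 1 ++ b) := by
            have m1' := m1
            rw [hR] at m1'
            rcases List.mem_append.mp m1' with hm | hm
            · left
              obtain ⟨S1, S2, hS12⟩ := List.append_of_mem hm
              refine ⟨Bw S1 B', (3 * 1 + 2) :: (Bw S2 B' ++ α), ?_⟩
              rw [hP, hS12, bwApp, bwCons]
              simp [List.append_assoc]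
            · right
              rcases List.mem_cons.mp hm with hm | hm
              · omega
              · obtain ⟨S1, S2, hS12⟩ := List.append_of_mem hm
                refine ⟨γ ++ (3 * (d + 2) + 2) :: Bw S1 B', (3 * 1 + 2) :: (Bw S2 B' ++ e), ?_⟩
                rw [hQd, hS12, bwApp, bwCons]
                simp [List.append_assoc]
          rcases hloc with ⟨a, b, hab⟩ | ⟨a, b, hab⟩
          · exact ⟨B' 1, a, b, Or.inl hab, hmult, hv1, hh1⟩
          · exact ⟨B' 1, a, b, Or.inr hab, hmult, hv1, hh1⟩
    · apply phx n β hS.hz P Q Y Y' hYY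
      intro h hh
      exact hheavy h hh (fun hh' => hvY (hh' ▸ hh))
  · intro α Y Y' γ he hYY
    refine rrTrans hE ?_
    have hW : Bw R (pz n (3 * m + 1) B) ++ e = (Bw R (pz n (3 * m + 1) B) ++ α) ++ (Y ++ γ) := by
      rw [he]
      simp [List.append_assoc]
    have hW' : Bw R (pz n (3 * m + 1) B) ++ (α ++ (Y' ++ γ)) =
        (Bw R (pz n (3 * m + 1) B) ++ α) ++ (Y' ++ γ) := by
      simp [List.append_assoc]
    rw [hW']
    have key := phx n β hS.hz (Bw R (pz n (3 * m + 1) B) ++ α) γ Y Y' hYY ?_
    · rw [hW]
      exact key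
    · intro a ha
      rw [← hW]
      have hae : a ∈ e := by
        rw [he]
        exact List.mem_append_right _ (List.mem_append_left _ ha)
      have haw : a ∈ Bw R (pz n (3 * m + 1) B) ++ e := List.mem_append_right _ hae
      apply heavy a haw
      rcases bz.ct a haw (se a hae) with rfl | rfl | rfl | hac
      · exact absurd hae bz.xe
      · exact absurd hae bz.ye
      · exact absurd hae bz.ze
      · rcases hS.can.lo a hac with ⟨d', hd', rfl⟩ | ⟨hl1, hl2, _⟩
        · exact absurd hae (bz.le d' hd')
        · exact Or.inr ⟨hl1, hl2⟩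

end Pool.Agent.MWFE.H36
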